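import Pool.Agent.SZT.StmtsB

/-!
SZT, row SCH: the algebraic Schwarz lemma.
-/

open Polynomial

namespace Pool.Agent.SZT.H41

open Pool.Agent.SZT.B

section

variable {L : Type} [NormedField L] [IsUltrametricDist L]

theorem sch_add {p q : L[X]} (hp : PInt p) (hq : PInt q) : PInt (p + q) := by
  intro i
  rw [coeff_add]
  exact (IsUltrametricDist.norm_add_le_max _ _).trans (max_le (hp i) (hq i))

theorem sch_mul {p q : L[X]} (hp : PInt p) (hq : PInt q) : PInt (p * q) := by
  intro i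
  rw [coeff_mul]
  refine IsUltrametricDist.norm_sum_le_of_forall_le_of_nonneg zero_le_one fun x _ => ?_
  rw [norm_mul]
  exact mul_le_one₀ (hp _) (norm_nonneg _) (hq _)

theorem sch_C {c : L} (hc : ‖c‖ ≤ 1) : PInt (C c : L[X]) := by
  intro i
  rw [coeff_C]
  split_ifs
  · exact hc
  · simp

theorem sch_eval {p : L[X]} (hp : PInt p) {a : L} (ha : ‖a‖ ≤ 1) : ‖p.eval a‖ ≤ 1 := by
  rw [eval_eq_sum_range]
  refine IsUltrametricDist.norm_sum_le_of_forall_le_of_nonneg zero_le_one fun i _ => ?_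
  rw [norm_mul, norm_pow]
  exact mul_le_one₀ (hp _) (by positivity) (pow_le_one₀ (norm_nonneg _) ha)

theorem sch_div {p : L[X]} (hp : PInt p) {a : L} (ha : ‖a‖ ≤ 1) : PInt (p /ₘ (X - C a)) := by
  intro i
  rw [coeff_divByMonic_X_sub_C]
  refine IsUltrametricDist.norm_sum_le_of_forall_le_of_nonneg zero_le_one fun j _ => ?_
  rw [norm_mul, norm_pow]
  exact mul_le_one₀ (pow_le_one₀ (norm_nonneg _) ha) (norm_nonneg _) (hp _)

theorem sch_dec (p : L[X]) (a : L) : p = C (p.eval a) + (X - C a) * (p /ₘ (X - C a)) := by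
  have h := modByMonic_add_div p (X - C a)
  rw [modByMonic_X_sub_C_eq_C_eval] at h
  exact h.symm

theorem sch_core (F : L[X]) (a y₀ : L) (hF : PInt F) (ha : ‖a‖ ≤ 1) (hy : y₀ ^ 2 = F.eval a) :
    ∀ (m : ℕ) (α β : L[X]), PInt α → PInt β → (X - C a) ^ m ∣ α ^ 2 - F * β ^ 2 →
      (m = 0 ∨ α.eval a + β.eval a * y₀ = 0) → α.eval a - β.eval a * y₀ ≠ 0 →
      ‖(derivative F).eval a‖ ^ m * ‖α.eval a - β.eval a * y₀‖ ≤ ‖2 * y₀‖ ^ m := by
  have hy1 : ‖y₀‖ ≤ 1 := by
    have h1 : ‖y₀‖ ^ 2 ≤ 1 := by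
      rw [← norm_pow, hy]
      exact sch_eval hF ha
    by_contra hcon
    push Not at hcon
    have : 1 < ‖y₀‖ ^ 2 := one_lt_pow₀ hcon (by norm_num)
    linarith
  intro m
  induction m with
  | zero =>
    intro α β hα hβ _ _ _
    rw [pow_zero, pow_zero, one_mul, sub_eq_add_neg]
    refine (IsUltrametricDist.norm_add_le_max _ _).trans (max_le (sch_eval hα ha) ?_)
    rw [norm_neg, norm_mul]
    exact mul_le_one₀ (sch_eval hβ ha) (norm_nonneg _) hy1
  | succ m ih =>
    intro α β hα hβ hdvd h0 hne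
    have hab : α.eval a + β.eval a * y₀ = 0 := h0.resolve_left (by omega)
    set g : L[X] := F /ₘ (X - C a) with hg
    set α₁ : L[X] := α /ₘ (X - C a) with hα₁
    set β₁ : L[X] := β /ₘ (X - C a) with hβ₁
    set b : L := β.eval a with hb
    have hFd : F = C (y₀ ^ 2) + (X - C a) * g := by rw [hy]; exact sch_dec F a
    have hαd : α = C (-(b * y₀)) + (X - C a) * α₁ := by
      have h1 := sch_dec α a
      have h2 : α.eval a = -(b * y₀) := by linear_combination hab
      rw [h2] at h1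
      exact h1
    have hβd : β = C b + (X - C a) * β₁ := sch_dec β a
    have hderiv : (derivative F).eval a = g.eval a := by
      conv_lhs => rw [hFd, derivative_add, derivative_C, derivative_mul]
      simp
    have hval : α.eval a - b * y₀ = -(2 * (b * y₀)) := by linear_combination hab
    by_cases hg0 : g.eval a = 0
    · rw [hderiv, hg0, norm_zero, zero_pow (by omega), zero_mul]
      positivity
    have hgI : PInt g := sch_div hF ha
    have hα₁I : PInt α₁ := sch_div hα ha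
    have hβ₁I : PInt β₁ := sch_div hβ ha
    have hbI : ‖b‖ ≤ 1 := sch_eval hβ ha
    set α' : L[X] := C y₀ * α₁ + β₁ * F + C b * g with hα'
    set β' : L[X] := α₁ + C y₀ * β₁ with hβ'
    have hα'I : PInt α' :=
      sch_add (sch_add (sch_mul (sch_C hy1) hα₁I) (sch_mul hβ₁I hF)) (sch_mul (sch_C hbI) hgI)
    have hβ'I : PInt β' := sch_add hα₁I (sch_mul (sch_C hy1) hβ₁I)
    have hid : g * (α ^ 2 - F * β ^ 2) = -((X - C a) * (α' ^ 2 - F * β' ^ 2)) := by
      rw [hα', hβ']
      have e1 : (C (y₀ ^ 2) : L[X]) = C y₀ ^ 2 := by rw [C_pow]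
      have e2 : (C (-(b * y₀)) : L[X]) = -(C b * C y₀) := by rw [C_neg, C_mul]
      rw [e1] at hFd
      rw [e2] at hαd
      rw [hαd, hβd, hFd]
      ring
    have hdvd' : (X - C a) ^ m ∣ α' ^ 2 - F * β' ^ 2 := by
      have h1 : (X - C a) ^ (m + 1) ∣ (X - C a) * (α' ^ 2 - F * β' ^ 2) := by
        rw [← dvd_neg, ← hid]
        exact Dvd.dvd.mul_left hdvd g
      rw [pow_succ'] at h1
      exact (mul_dvd_mul_iff_left (X_sub_C_ne_zero a)).mp h1
    have hFa : F.eval a = y₀ ^ 2 := hy.symm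
    have hv : α'.eval a - β'.eval a * y₀ = b * g.eval a := by
      rw [hα', hβ']
      simp only [eval_add, eval_mul, eval_C]
      rw [hFa]
      ring
    have hb0 : b ≠ 0 := by
      intro h
      apply hne
      rw [hval, h]
      ring
    have hne' : α'.eval a - β'.eval a * y₀ ≠ 0 := by
      rw [hv]
      exact mul_ne_zero hb0 hg0
    have h0' : m = 0 ∨ α'.eval a + β'.eval a * y₀ = 0 := by
      rcases Nat.eq_zero_or_pos m with hm | hm
      · exact Or.inl hm
      · right
        have h1 : (X - C a) ∣ α' ^ 2 - F * β' ^ 2 :=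
          (dvd_pow_self _ (by omega)).trans hdvd'
        rw [dvd_iff_isRoot, IsRoot.def] at h1
        simp only [eval_sub, eval_mul, eval_pow] at h1
        rw [hFa] at h1
        have h2 : (α'.eval a - β'.eval a * y₀) * (α'.eval a + β'.eval a * y₀) = 0 := by
          linear_combination h1
        exact (mul_eq_zero.mp h2).resolve_left hne'
    have hih := ih α' β' hα'I hβ'I hdvd' h0' hne'
    rw [hderiv] at hih ⊢
    have hkey : g.eval a * (α.eval a - b * y₀) = -(2 * y₀ * (α'.eval a - β'.eval a * y₀)) := by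
      rw [hv, hval]
      ring
    calc ‖g.eval a‖ ^ (m + 1) * ‖α.eval a - b * y₀‖
        = ‖g.eval a‖ ^ m * ‖g.eval a * (α.eval a - b * y₀)‖ := by rw [norm_mul]; ring
      _ = ‖2 * y₀‖ * (‖g.eval a‖ ^ m * ‖α'.eval a - β'.eval a * y₀‖) := by
          rw [hkey, norm_neg, norm_mul]; ring
      _ ≤ ‖2 * y₀‖ * ‖2 * y₀‖ ^ m := mul_le_mul_of_nonneg_left hih (norm_nonneg _)
      _ = ‖2 * y₀‖ ^ (m + 1) := by ring

end

theorem sch : SchStmt := by
  intro L _ _ F α β a y₀ m hF hα hβ ha hy hdvd hab hne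
  exact sch_core F a y₀ hF ha hy m α β hα hβ hdvd (Or.inr hab) hne

end Pool.Agent.SZT.H41
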